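import Pool.Agent.U469.RT.Stm

/-!
Project RT, package OPD: the difference of a symmetric decreasing element acts on the elements
with a symmetric decreasing majorant.
-/

set_option autoImplicit false

namespace Pool.Agent.U739.RT.OPD

open Pool.Agent.R248.Ritt Pool.Agent.U469.RT Finset

lemma coeff_T (j k : ℤ) : (T j).coeff k = if k = j then 1 else 0 := by
  have h := coeff_T_mul j 1 k
  rw [mul_one, coeff_one] at h
  rw [h]
  simp only [sub_eq_zero]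

/-- A finite part of the `ℓ¹` norm. -/
lemma part_le_N1 {f : A} (h : SU f) (M : ℕ) :
    ∑ i ∈ range (M + 1), f.coeff (i : ℤ) + ∑ i ∈ range M, f.coeff ((i : ℤ) + 1) ≤ N1 f := by
  have hs := summ f
  have h1 : Summable fun n : ℕ => |f.coeff (n : ℤ)| :=
    hs.comp_injective (i := fun n : ℕ => (n : ℤ)) Nat.cast_injective
  have h2 : Summable fun n : ℕ => |f.coeff (-((n : ℤ) + 1))| :=
    hs.comp_injective (i := fun n : ℕ => (-((n:ℤ) + 1))) (fun a b hab => by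
        simp only [neg_inj, add_left_inj, Nat.cast_inj] at hab; exact hab)
  have e : N1 f = ∑' n : ℕ, |f.coeff (n : ℤ)| + ∑' n : ℕ, |f.coeff (-((n : ℤ) + 1))| := by
    unfold N1
    rw [tsum_of_nat_of_neg_add_one (f := fun k : ℤ => |f.coeff k|) h1 h2]
  rw [e]
  refine add_le_add ?_ ?_
  · refine le_trans (sum_le_sum fun i _ => le_abs_self _) ?_
    exact h1.sum_le_tsum _ fun _ _ => abs_nonneg _
  · refine le_trans (sum_le_sum fun i _ => ?_)
      (h2.sum_le_tsum (range M) fun _ _ => abs_nonneg _)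
    rw [h.symm]
    exact le_abs_self _

/-- Abel summation. -/
lemma abel {f : A} (M : ℕ) :
    ∑ ρ ∈ range M, (f.coeff (ρ : ℤ) - f.coeff ((ρ : ℤ) + 1)) * (2 * ρ + 1) +
      (2 * M + 1) * f.coeff (M : ℤ) =
    ∑ i ∈ range (M + 1), f.coeff (i : ℤ) + ∑ i ∈ range M, f.coeff ((i : ℤ) + 1) := by
  induction M with
  | zero => simp
  | succ M ih =>
    rw [sum_range_succ, sum_range_succ (fun i : ℕ => f.coeff (i : ℤ)) (M + 1),
      sum_range_succ (fun i : ℕ => f.coeff ((i : ℤ) + 1)) M]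
    push_cast at ih ⊢
    linarith

/-- The two sums of the coefficients. -/
lemma sums {f : A} (h : SU f) {N : ℕ} (hN : ∀ n : ℕ, N ≤ n → f.coeff (n : ℤ) = 0) :
    ∑ ρ ∈ range N, (f.coeff (ρ : ℤ) - f.coeff ((ρ : ℤ) + 1)) = f.coeff 0 ∧
    ∑ ρ ∈ range N, (f.coeff (ρ : ℤ) - f.coeff ((ρ : ℤ) + 1)) * (2 * ρ + 1) ≤ N1 f := by
  constructor
  · have h1 := Finset.sum_range_sub' (fun n : ℕ => f.coeff (n : ℤ)) N
    push_cast at h1
    rw [h1, hN N le_rfl, sub_zero]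
  · have h1 := part_le_N1 h N
    have h2 := abel (f := f) N
    rw [hN N le_rfl, mul_zero, add_zero] at h2
    rw [h2]
    exact h1

lemma repr_pos {f : A} (h : SU f) {N : ℕ} (hN : ∀ n : ℕ, N ≤ n → f.coeff (n : ℤ) = 0) :
    (1 - T 1) * f = ∑ ρ ∈ range N, (f.coeff (ρ : ℤ) - f.coeff ((ρ : ℤ) + 1)) •
      (T (-(ρ : ℤ)) + (-1 : ℝ) • T ((ρ : ℤ) + 1)) := by
  have key : ∀ k : ℤ, ((1 - T 1) * f).coeff k = (∑ ρ ∈ range N,
      (f.coeff (ρ : ℤ) - f.coeff ((ρ : ℤ) + 1)) •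
      (T (-(ρ : ℤ)) + (-1 : ℝ) • T ((ρ : ℤ) + 1))).coeff k := by
    intro k
    rw [sub_mul, one_mul, AddMonoidAlgebra.coeff_sub, Finsupp.sub_apply, coeff_T_mul,
      AddMonoidAlgebra.coeff_sum, Finsupp.finsetSum_apply]
    simp only [AddMonoidAlgebra.coeff_smul_apply, AddMonoidAlgebra.coeff_add, Finsupp.add_apply,
      smul_eq_mul, coeff_T]
    rcases le_or_gt k 0 with hk | hk
    · obtain ⟨n, rfl⟩ : ∃ n : ℕ, k = -(n : ℤ) := ⟨k.natAbs, by omega⟩
      have e1 : f.coeff (-(n : ℤ) - 1) = f.coeff ((n : ℤ) + 1) := by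
        rw [← h.symm]; congr 1; ring
      rw [e1, h.symm]
      have e2 : ∀ ρ ∈ range N, (f.coeff (ρ : ℤ) - f.coeff ((ρ : ℤ) + 1)) *
          ((if -(n : ℤ) = -(ρ : ℤ) then (1 : ℝ) else 0) +
            -1 * (if -(n : ℤ) = (ρ : ℤ) + 1 then (1 : ℝ) else 0)) =
          if ρ = n then (f.coeff (n : ℤ) - f.coeff ((n : ℤ) + 1)) else 0 := by
        intro ρ _
        rw [if_neg (by omega : ¬ (-(n : ℤ) = (ρ : ℤ) + 1))]
        by_cases hρ : ρ = n
        · subst hρ; simp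
        · rw [if_neg (by omega), if_neg hρ]; simp
      rw [sum_congr rfl e2, sum_ite_eq']
      split_ifs with hm
      · rfl
      · have h1 : N ≤ n := by simpa using hm
        rw [hN n h1]
        have h2 := hN (n + 1) (by omega)
        push_cast at h2
        rw [h2]; simp
    · obtain ⟨n, rfl⟩ : ∃ n : ℕ, k = (n : ℤ) + 1 := ⟨(k - 1).natAbs, by omega⟩
      have e2 : ∀ ρ ∈ range N, (f.coeff (ρ : ℤ) - f.coeff ((ρ : ℤ) + 1)) *
          ((if (n : ℤ) + 1 = -(ρ : ℤ) then (1 : ℝ) else 0) +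
            -1 * (if (n : ℤ) + 1 = (ρ : ℤ) + 1 then (1 : ℝ) else 0)) =
          if ρ = n then (f.coeff ((n : ℤ) + 1) - f.coeff (n : ℤ)) else 0 := by
        intro ρ _
        rw [if_neg (by omega : ¬ ((n : ℤ) + 1 = -(ρ : ℤ)))]
        by_cases hρ : ρ = n
        · subst hρ; simp
        · rw [if_neg (by omega), if_neg hρ]; simp
      rw [sum_congr rfl e2, sum_ite_eq']
      have e3 : (n : ℤ) + 1 - 1 = n := by ring
      rw [e3]
      split_ifs with hm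
      · rfl
      · have h1 : N ≤ n := by simpa using hm
        rw [hN n h1]
        have h2 := hN (n + 1) (by omega)
        push_cast at h2
        rw [h2]; simp
  apply AddMonoidAlgebra.coeff_injective
  ext k
  exact key k

lemma repr_neg {f : A} (h : SU f) {N : ℕ} (hN : ∀ n : ℕ, N ≤ n → f.coeff (n : ℤ) = 0) :
    (1 - T (-1)) * f = ∑ ρ ∈ range N, (f.coeff (ρ : ℤ) - f.coeff ((ρ : ℤ) + 1)) •
      (T (ρ : ℤ) + (-1 : ℝ) • T (-((ρ : ℤ) + 1))) := by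
  have key : ∀ k : ℤ, ((1 - T (-1)) * f).coeff k = (∑ ρ ∈ range N,
      (f.coeff (ρ : ℤ) - f.coeff ((ρ : ℤ) + 1)) •
      (T (ρ : ℤ) + (-1 : ℝ) • T (-((ρ : ℤ) + 1)))).coeff k := by
    intro k
    rw [sub_mul, one_mul, AddMonoidAlgebra.coeff_sub, Finsupp.sub_apply, coeff_T_mul,
      AddMonoidAlgebra.coeff_sum, Finsupp.finsetSum_apply, sub_neg_eq_add]
    simp only [AddMonoidAlgebra.coeff_smul_apply, AddMonoidAlgebra.coeff_add, Finsupp.add_apply,
      smul_eq_mul, coeff_T]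
    rcases le_or_gt 0 k with hk | hk
    · obtain ⟨n, rfl⟩ : ∃ n : ℕ, k = (n : ℤ) := ⟨k.natAbs, by omega⟩
      have e2 : ∀ ρ ∈ range N, (f.coeff (ρ : ℤ) - f.coeff ((ρ : ℤ) + 1)) *
          ((if (n : ℤ) = (ρ : ℤ) then (1 : ℝ) else 0) +
            -1 * (if (n : ℤ) = -((ρ : ℤ) + 1) then (1 : ℝ) else 0)) =
          if ρ = n then (f.coeff (n : ℤ) - f.coeff ((n : ℤ) + 1)) else 0 := by
        intro ρ _
        rw [if_neg (by omega : ¬ ((n : ℤ) = -((ρ : ℤ) + 1)))]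
        by_cases hρ : ρ = n
        · subst hρ; simp
        · rw [if_neg (by omega), if_neg hρ]; simp
      rw [sum_congr rfl e2, sum_ite_eq']
      split_ifs with hm
      · rfl
      · have h1 : N ≤ n := by simpa using hm
        rw [hN n h1]
        have h2 := hN (n + 1) (by omega)
        push_cast at h2
        rw [h2]; simp
    · obtain ⟨n, rfl⟩ : ∃ n : ℕ, k = -((n : ℤ) + 1) := ⟨(k + 1).natAbs, by omega⟩
      have e1 : f.coeff (-((n : ℤ) + 1) + 1) = f.coeff (n : ℤ) := by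
        rw [← h.symm]; congr 1; ring
      rw [e1, h.symm]
      have e2 : ∀ ρ ∈ range N, (f.coeff (ρ : ℤ) - f.coeff ((ρ : ℤ) + 1)) *
          ((if -((n : ℤ) + 1) = (ρ : ℤ) then (1 : ℝ) else 0) +
            -1 * (if -((n : ℤ) + 1) = -((ρ : ℤ) + 1) then (1 : ℝ) else 0)) =
          if ρ = n then (f.coeff ((n : ℤ) + 1) - f.coeff (n : ℤ)) else 0 := by
        intro ρ _
        rw [if_neg (by omega : ¬ (-((n : ℤ) + 1) = (ρ : ℤ)))]
        by_cases hρ : ρ = n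
        · subst hρ; simp
        · rw [if_neg (by omega), if_neg hρ]; simp
      rw [sum_congr rfl e2, sum_ite_eq']
      split_ifs with hm
      · rfl
      · have h1 : N ≤ n := by simpa using hm
        rw [hN n h1]
        have h2 := hN (n + 1) (by omega)
        push_cast at h2
        rw [h2]; simp
  apply AddMonoidAlgebra.coeff_injective
  ext k
  exact key k

/-- The combination of the rules. -/
lemma comb (hT : S_OPT) (hR : S_OPR) {f : A} (h : SU f) {N : ℕ}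
    (hN : ∀ n : ℕ, N ≤ n → f.coeff (n : ℤ) = 0) (p q : ℕ → ℤ)
    (hp : ∀ ρ : ℕ, |(p ρ : ℝ)| + |(q ρ : ℝ)| = 2 * ρ + 1) :
    Op (2 * f.coeff 0) (2 * N1 f) (∑ ρ ∈ range N, (f.coeff (ρ : ℤ) - f.coeff ((ρ : ℤ) + 1)) •
      (T (p ρ) + (-1 : ℝ) • T (q ρ))) := by
  obtain ⟨-, -, hadd, hsmul, hsum, -, hmono⟩ := hR
  have hc : ∀ ρ : ℕ, 0 ≤ f.coeff (ρ : ℤ) - f.coeff ((ρ : ℤ) + 1) := fun ρ =>
    sub_nonneg.2 (h.anti ρ (by positivity))
  have h1 : ∀ ρ ∈ range N, Op ((f.coeff (ρ : ℤ) - f.coeff ((ρ : ℤ) + 1)) * 2)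
      ((f.coeff (ρ : ℤ) - f.coeff ((ρ : ℤ) + 1)) * (2 * (2 * ρ + 1)))
      ((f.coeff (ρ : ℤ) - f.coeff ((ρ : ℤ) + 1)) • (T (p ρ) + (-1 : ℝ) • T (q ρ))) := by
    intro ρ _
    have h2 := hsmul _ _ (-1) _ (hT (q ρ))
    have h3 := hadd _ _ _ _ _ _ (hT (p ρ)) h2
    have h4 := hsmul _ _ (f.coeff (ρ : ℤ) - f.coeff ((ρ : ℤ) + 1)) _ h3
    refine hmono _ _ _ _ _ ?_ ?_ h4
    · rw [abs_of_nonneg (hc ρ)]
      norm_num
    · rw [abs_of_nonneg (hc ρ)]
      refine mul_le_mul_of_nonneg_left ?_ (hc ρ)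
      have := hp ρ
      rw [abs_neg, abs_one]
      linarith
  obtain ⟨s1, s2⟩ := sums h hN
  refine hmono _ _ _ _ _ ?_ ?_ (hsum ℕ (range N) _ _ _ h1)
  · rw [← sum_mul, s1]
    linarith
  · have e : ∑ ρ ∈ range N, (f.coeff (ρ : ℤ) - f.coeff ((ρ : ℤ) + 1)) * (2 * (2 * (ρ : ℝ) + 1)) =
        2 * ∑ ρ ∈ range N, (f.coeff (ρ : ℤ) - f.coeff ((ρ : ℤ) + 1)) * (2 * ρ + 1) := by
      rw [mul_sum]
      exact sum_congr rfl fun _ _ => by ring
    rw [e]
    linarith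

theorem opd (hT : S_OPT) (hR : S_OPR) : S_OPD := by
  intro f h
  obtain ⟨N, hN⟩ := exists_bound f
  constructor
  · rw [repr_pos h hN]
    refine comb hT hR h hN (fun ρ => -(ρ : ℤ)) (fun ρ => (ρ : ℤ) + 1) fun ρ => ?_
    push_cast
    rw [abs_neg, abs_of_nonneg (by positivity : (0:ℝ) ≤ ρ),
      abs_of_nonneg (by positivity : (0:ℝ) ≤ (ρ : ℝ) + 1)]
    ring
  · rw [repr_neg h hN]
    refine comb hT hR h hN (fun ρ => (ρ : ℤ)) (fun ρ => -((ρ : ℤ) + 1)) fun ρ => ?_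
    push_cast
    rw [abs_of_nonneg (by positivity : (0:ℝ) ≤ ρ), abs_neg,
      abs_of_nonneg (by positivity : (0:ℝ) ≤ (ρ : ℝ) + 1)]
    ring

end Pool.Agent.U739.RT.OPD
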